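import Pool.Agent.Zk4.FP.GH

set_option autoImplicit false

/-!
# Heights at which the horizontal integral of the logarithmic derivative is `O(log T)`
-/

namespace Pool.Agent.Zk4.FP

open Complex Filter Topology MeasureTheory Set Metric intervalIntegral
open Pool.Agent.H24R2.JP (XX HH Om)
open Pool.Agent.H24R2.DZ
open Pool.Agent.W125.SD (XX_diff iter_diff iter_scale jcount)
open Pool.Agent.Zk69.DH (zs zs_finite)
open H370.Loc (Pf Pf_zero Pf_cons Pf_ne_zero Pf_diff Pf_norm_ge Pf_norm_le)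

/-- the sum of `1 / |z - ρ|` -/
noncomputable def Sf (s : Multiset ℂ) (z : ℂ) : ℝ := (s.map (fun ρ => 1 / ‖z - ρ‖)).sum

theorem Sf_zero (z : ℂ) : Sf 0 z = 0 := by simp [Sf]

theorem Sf_cons (ρ : ℂ) (s : Multiset ℂ) (z : ℂ) : Sf (ρ ::ₘ s) z = 1 / ‖z - ρ‖ + Sf s z := by simp [Sf]

theorem Pf_logDeriv_sum {s : Multiset ℂ} {z : ℂ} (h : ∀ ρ ∈ s, z ≠ ρ) :
    ‖logDeriv (Pf s) z‖ ≤ Sf s z := by
  induction s using Multiset.induction_on with
  | empty =>
    have : Pf 0 = fun _ => (1 : ℂ) := funext Pf_zero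
    rw [this, Sf_zero]
    simp [logDeriv]
  | cons ρ s ih =>
    have : Pf (ρ ::ₘ s) = fun z => (z - ρ) * Pf s z := funext (Pf_cons ρ s)
    have hz : z - ρ ≠ 0 := sub_ne_zero.2 (h ρ (Multiset.mem_cons_self ρ s))
    have hP : Pf s z ≠ 0 := Pf_ne_zero fun ρ' h' => h ρ' (Multiset.mem_cons_of_mem h')
    have e1 : logDeriv (fun z => (z - ρ) * Pf s z) z =
        logDeriv (fun z => z - ρ) z + logDeriv (Pf s) z :=
      logDeriv_mul z hz hP (differentiableAt_id.sub_const ρ) (Pf_diff s z)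
    rw [this, e1, Sf_cons]
    have e2 : logDeriv (fun z => z - ρ) z = 1 / (z - ρ) := by
      rw [logDeriv_apply]
      congr 1
      simp
    have h3 := ih fun ρ' h' => h ρ' (Multiset.mem_cons_of_mem h')
    refine (norm_add_le _ _).trans (add_le_add ?_ h3)
    rw [e2, norm_div, norm_one]

/-- Landau's lemma, with the sum over the nearby zeros -/
lemma landau_sum {f : ℂ → ℂ} {c : ℂ} {r r1 r2 R M : ℝ} (hr2 : 0 < r2) (h21 : r2 < r1)
    (h1r : r1 < r) (hrR : r < R) (hRr : R ≤ 2 * r) (hM : 1 ≤ M) (hMf : ‖f c‖ ≤ M)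
    (hf : AnalyticOnNhd ℂ f (closedBall c R)) (hc : f c ≠ 0)
    (hb : ∀ z ∈ closedBall c R, ‖f z‖ ≤ M) :
    ∃ s : Multiset ℂ, (∀ ρ ∈ s, f ρ = 0) ∧
      (Multiset.card s : ℝ) ≤ Real.log (M / ‖f c‖) / Real.log (R / r) ∧
      ∀ z ∈ closedBall c r2, f z ≠ 0 → ‖deriv f z / f z‖ ≤ Sf s z +
        2 * (Real.log (M / ‖f c‖) + Real.log (M / ‖f c‖) / Real.log (R / r) *
          Real.log (r / (R - r)) + 1) * r1 / (r - r1) / (r1 - r2) := by
  have hr : 0 < r := by linarith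
  have hR : 0 < R := by linarith
  obtain ⟨s, g, hs, hg, hfg, hg0, hcard⟩ := H370.Loc.extract hr hrR hM hf hc hb
  refine ⟨s, fun ρ hρ => (hs ρ hρ).2, hcard, ?_⟩
  intro z hz hfz
  have hzr : z ∈ closedBall c r := closedBall_subset_closedBall (by linarith) hz
  have hzR : z ∈ closedBall c R := closedBall_subset_closedBall hrR.le hzr
  have hcr : c ∈ closedBall c r := mem_closedBall_self hr.le
  have hcR : c ∈ closedBall c R := mem_closedBall_self hR.le
  have hPz : Pf s z ≠ 0 := by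
    intro h0
    apply hfz
    rw [hfg z, h0, zero_mul]
  have hsz : ∀ ρ ∈ s, z ≠ ρ := by
    rintro ρ hρ rfl
    exact hfz (hs z hρ).2
  have hfc : 0 < ‖f c‖ := norm_pos_iff.2 hc
  set n := Multiset.card s with hn
  have hlogM : 0 ≤ Real.log (M / ‖f c‖) := Real.log_nonneg (by rw [le_div_iff₀ hfc]; linarith)
  have hRr0 : 0 < R - r := by linarith
  have hq : 1 ≤ r / (R - r) := by rw [le_div_iff₀ hRr0]; linarith
  have hlogq : 0 ≤ Real.log (r / (R - r)) := Real.log_nonneg hq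
  -- bounds for g
  have hgsphere : ∀ w ∈ sphere c R, ‖g w‖ ≤ M / (R - r) ^ n := by
    intro w hw
    have hwR := sphere_subset_closedBall hw
    have h1 : (R - r) ^ n ≤ ‖Pf s w‖ := Pf_norm_ge hRr0.le fun ρ hρ => by
      have h2 := (hs ρ hρ).1
      rw [mem_closedBall, dist_eq_norm] at h2
      rw [mem_sphere, dist_eq_norm] at hw
      have h3 : ‖w - c‖ ≤ ‖w - ρ‖ + ‖ρ - c‖ := by
        calc ‖w - c‖ = ‖(w - ρ) + (ρ - c)‖ := by congr 1; ring
          _ ≤ _ := norm_add_le _ _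
      linarith
    rw [le_div_iff₀ (by positivity)]
    calc ‖g w‖ * (R - r) ^ n ≤ ‖g w‖ * ‖Pf s w‖ := mul_le_mul_of_nonneg_left h1 (norm_nonneg _)
      _ = ‖f w‖ := by rw [hfg w, norm_mul, mul_comm]
      _ ≤ M := hb w hwR
  have hgball : ∀ w ∈ closedBall c R, ‖g w‖ ≤ M / (R - r) ^ n := by
    intro w hw
    refine Complex.norm_le_of_forall_mem_frontier_norm_le (U := ball c R) isBounded_ball ?_ ?_ ?_
    · apply DifferentiableOn.diffContOnCl
      rw [closure_ball c hR.ne']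
      exact fun x hx => (hg x hx).differentiableAt.differentiableWithinAt
    · intro x hx
      rw [frontier_ball c hR.ne'] at hx
      exact hgsphere x hx
    · rwa [closure_ball c hR.ne']
  have hgc : ‖f c‖ / r ^ n ≤ ‖g c‖ := by
    rw [div_le_iff₀ (by positivity)]
    have h1 : ‖Pf s c‖ ≤ r ^ n := Pf_norm_le fun ρ hρ => by
      have h2 := (hs ρ hρ).1
      rw [mem_closedBall, dist_eq_norm, norm_sub_rev] at h2
      exact h2
    calc ‖f c‖ = ‖g c‖ * ‖Pf s c‖ := by rw [hfg c, norm_mul, mul_comm]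
      _ ≤ ‖g c‖ * r ^ n := mul_le_mul_of_nonneg_left h1 (norm_nonneg _)
  set B : ℝ := Real.log (M / ‖f c‖) + n * Real.log (r / (R - r)) with hB
  have hB0 : 0 ≤ B := by positivity
  have hexpB : Real.exp B = M / ‖f c‖ * (r / (R - r)) ^ n := by
    rw [hB, Real.exp_add, Real.exp_log (by positivity), Real.exp_nat_mul,
      Real.exp_log (by positivity)]
  have hgb : ∀ w ∈ closedBall c r, ‖g w‖ ≤ Real.exp B * ‖g c‖ := by
    intro w hw
    refine (hgball w (closedBall_subset_closedBall hrR.le hw)).trans ?_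
    rw [hexpB]
    calc M / (R - r) ^ n = M / ‖f c‖ * (r / (R - r)) ^ n * (‖f c‖ / r ^ n) := by
          rw [div_pow]; field_simp
      _ ≤ _ := mul_le_mul_of_nonneg_left hgc (by positivity)
  have hlg := H370.Loc.logDeriv_zero_free hr2 h21 h1r hB0
    (hg.mono (closedBall_subset_closedBall hrR.le)) hg0 hgb hz
  have hlP := Pf_logDeriv_sum (s := s) hsz
  have heq : deriv f z / f z = logDeriv (Pf s) z + logDeriv g z := by
    have h1 : f = fun w => Pf s w * g w := funext hfg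
    rw [← logDeriv_apply]
    conv_lhs => rw [h1]
    exact logDeriv_mul z hPz (hg0 z hzr) (Pf_diff s z) (hg z hzR).differentiableAt
  rw [heq]
  refine (norm_add_le _ _).trans (add_le_add hlP (hlg.trans ?_))
  have h8 : B ≤ Real.log (M / ‖f c‖) + Real.log (M / ‖f c‖) / Real.log (R / r) *
        Real.log (r / (R - r)) := by
    rw [hB]
    have := mul_le_mul_of_nonneg_right hcard hlogq
    linarith
  have h9 : 0 < r - r1 := by linarith
  have h10 : 0 < r1 - r2 := by linarith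
  have h11 : 0 < r1 := by linarith
  gcongr

/-! ### the weight `|y|^(-1/2)` -/

/-- the weight -/
noncomputable def w (y : ℝ) : ℝ := |y| ^ (-(1 / 2) : ℝ)

theorem w_nonneg (y : ℝ) : 0 ≤ w y := Real.rpow_nonneg (abs_nonneg y) _

theorem w_pos_part {a b : ℝ} (ha : 0 ≤ a) (hab : a ≤ b) (h3 : b ≤ a + 3) :
    IntervalIntegrable w volume a b ∧ ∫ y in a..b, w y ≤ 4 := by
  have hI : IntervalIntegrable (fun y : ℝ => y ^ (-(1 / 2) : ℝ)) volume a b :=
    intervalIntegral.intervalIntegrable_rpow' (by norm_num)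
  have heq : ∀ y ∈ Set.uIcc a b, y ^ (-(1 / 2) : ℝ) = w y := by
    intro y hy
    rw [Set.uIcc_of_le hab] at hy
    unfold w
    rw [abs_of_nonneg (ha.trans hy.1)]
  refine ⟨hI.congr (fun y hy => heq y (Set.uIoc_subset_uIcc hy)), ?_⟩
  rw [← intervalIntegral.integral_congr heq, integral_rpow (Or.inl (by norm_num))]
  have e1 : (-(1 / 2) : ℝ) + 1 = 1 / 2 := by norm_num
  rw [e1, ← Real.sqrt_eq_rpow, ← Real.sqrt_eq_rpow]
  have h1 : Real.sqrt b ≤ Real.sqrt a + Real.sqrt (b - a) := by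
    refine Real.sqrt_le_iff.2 ⟨by positivity, ?_⟩
    have h5 := Real.sq_sqrt ha
    have h6 := Real.sq_sqrt (sub_nonneg.2 hab)
    have h7 := mul_nonneg (Real.sqrt_nonneg a) (Real.sqrt_nonneg (b - a))
    nlinarith
  have h2 : Real.sqrt (b - a) ≤ 2 := by
    rw [Real.sqrt_le_left (by norm_num)]
    linarith
  linarith

theorem w_neg (y : ℝ) : w (-y) = w y := by unfold w; rw [abs_neg]

theorem w_neg_part {a b : ℝ} (hb : b ≤ 0) (hab : a ≤ b) (h3 : b ≤ a + 3) :
    IntervalIntegrable w volume a b ∧ ∫ y in a..b, w y ≤ 4 := by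
  obtain ⟨h1, h2⟩ := w_pos_part (a := -b) (b := -a) (by linarith) (by linarith) (by linarith)
  have e : (fun y => w (-y)) = w := funext w_neg
  constructor
  · have := (IntervalIntegrable.iff_comp_neg (f := w) (a := a) (b := b)).2
    rw [e] at this
    exact this h1.symm
  · have := intervalIntegral.integral_comp_neg (a := a) (b := b) w
    rw [e] at this
    rw [this]
    exact h2

theorem w_part {a b : ℝ} (hab : a ≤ b) (h3 : b ≤ a + 3) :
    IntervalIntegrable w volume a b ∧ ∫ y in a..b, w y ≤ 8 := by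
  rcases le_total 0 a with ha | ha
  · exact ⟨(w_pos_part ha hab h3).1, (w_pos_part ha hab h3).2.trans (by norm_num)⟩
  rcases le_total b 0 with hb | hb
  · exact ⟨(w_neg_part hb hab h3).1, (w_neg_part hb hab h3).2.trans (by norm_num)⟩
  have h1 := w_neg_part (a := a) (b := 0) le_rfl ha (by linarith)
  have h2 := w_pos_part (a := 0) (b := b) le_rfl hb (by linarith)
  refine ⟨h1.1.trans h2.1, ?_⟩
  rw [← intervalIntegral.integral_add_adjacent_intervals h1.1 h2.1]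
  linarith [h1.2, h2.2]

theorem w_shift {a b : ℝ} (c : ℝ) (hab : a ≤ b) (h3 : b ≤ a + 3) :
    IntervalIntegrable (fun y => w (y - c)) volume a b ∧ ∫ y in a..b, w (y - c) ≤ 8 := by
  have h := w_part (a := a - c) (b := b - c) (by linarith) (by linarith)
  constructor
  · have := h.1.comp_sub_right c
    simpa using this
  · rw [intervalIntegral.integral_comp_sub_right (f := w)]
    exact h.2

/-- `1 / |z| ≤ |x|^(-1/2) |y|^(-1/2)` -/
theorem one_div_le_w {z : ℂ} (h1 : z.re ≠ 0) (h2 : z.im ≠ 0) : 1 / ‖z‖ ≤ w z.re * w z.im := by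
  have a1 : 0 < |z.re| := abs_pos.2 h1
  have a2 : 0 < |z.im| := abs_pos.2 h2
  unfold w
  rw [← Real.mul_rpow a1.le a2.le, Real.rpow_neg (by positivity), ← Real.sqrt_eq_rpow, ← one_div]
  refine one_div_le_one_div_of_le (Real.sqrt_pos.2 (by positivity)) ?_
  refine Real.sqrt_le_iff.2 ⟨norm_nonneg _, ?_⟩
  rw [← Complex.normSq_eq_norm_sq, Complex.normSq_apply]
  have h3 : z.re * z.re = |z.re| * |z.re| := (abs_mul_abs_self _).symm
  have h4 : z.im * z.im = |z.im| * |z.im| := (abs_mul_abs_self _).symm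
  rw [h3, h4]
  nlinarith [sq_nonneg (|z.re| - |z.im|), mul_pos a1 a2]

/-- the sum of the weights at the height `V` -/
noncomputable def Wf (s : Multiset ℂ) (V : ℝ) : ℝ := (s.map (fun ρ => w (V - ρ.im))).sum

theorem Wf_zero (V : ℝ) : Wf 0 V = 0 := by simp [Wf]

theorem Wf_cons (ρ : ℂ) (s : Multiset ℂ) (V : ℝ) : Wf (ρ ::ₘ s) V = w (V - ρ.im) + Wf s V := by simp [Wf]

theorem Sf_int {s : Multiset ℂ} {V : ℝ} (h : ∀ ρ ∈ s, V ≠ ρ.im) :
    IntervalIntegrable (fun x : ℝ => Sf s (⟨x, V⟩ : ℂ)) volume (-1) 1 ∧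
    ∫ x in (-1 : ℝ)..1, Sf s (⟨x, V⟩ : ℂ) ≤ 8 * Wf s V := by
  induction s using Multiset.induction_on with
  | empty =>
    simp only [Sf_zero, Wf_zero]
    exact ⟨intervalIntegrable_const, by simp⟩
  | cons ρ s ih =>
    obtain ⟨h1, h2⟩ := ih fun ρ' h' => h ρ' (Multiset.mem_cons_of_mem h')
    have hV : V ≠ ρ.im := h ρ (Multiset.mem_cons_self ρ s)
    have hV0 : V - ρ.im ≠ 0 := sub_ne_zero.2 hV
    have hcont : Continuous (fun x : ℝ => 1 / ‖(⟨x, V⟩ : ℂ) - ρ‖) := by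
      refine continuous_const.div ?_ ?_
      · have : (fun x : ℝ => (⟨x, V⟩ : ℂ)) = fun x : ℝ => (x : ℂ) + (V : ℂ) * I := by
          funext x
          exact Complex.mk_eq_add_mul_I x V
        have hc : Continuous (fun x : ℝ => (⟨x, V⟩ : ℂ)) := by rw [this]; fun_prop
        exact (hc.sub continuous_const).norm
      · intro x h0
        rw [norm_eq_zero] at h0
        have := congrArg Complex.im h0
        simp only [sub_im, zero_im] at this
        exact hV0 this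
    have i1 : IntervalIntegrable (fun x : ℝ => 1 / ‖(⟨x, V⟩ : ℂ) - ρ‖) volume (-1) 1 :=
      hcont.intervalIntegrable _ _
    have hw := w_shift (a := -1) (b := 1) ρ.re (by norm_num) (by norm_num)
    have hle : ∫ x in (-1 : ℝ)..1, 1 / ‖(⟨x, V⟩ : ℂ) - ρ‖ ≤
        ∫ x in (-1 : ℝ)..1, w (x - ρ.re) * w (V - ρ.im) := by
      refine intervalIntegral.integral_mono_ae (by norm_num) i1 (hw.1.mul_const _) ?_
      have hae : ∀ᵐ x : ℝ, x ≠ ρ.re := by
        have : volume ({ρ.re} : Set ℝ) = 0 := measure_singleton _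
        exact compl_mem_ae_iff.2 this
      filter_upwards [hae] with x hx
      have := one_div_le_w (z := (⟨x, V⟩ : ℂ) - ρ) (by simpa using sub_ne_zero.2 hx) (by simpa using hV0)
      simpa using this
    simp only [Sf_cons, Wf_cons]
    refine ⟨i1.add h1, ?_⟩
    rw [intervalIntegral.integral_add i1 h1]
    have h4 : ∫ x in (-1 : ℝ)..1, w (x - ρ.re) * w (V - ρ.im) ≤ 8 * w (V - ρ.im) := by
      rw [intervalIntegral.integral_mul_const]
      exact mul_le_mul_of_nonneg_right hw.2 (w_nonneg _)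
    linarith

theorem Wf_int (s : Multiset ℂ) (T : ℝ) :
    IntervalIntegrable (Wf s) volume T (T + 1) ∧ ∫ V in T..(T + 1), Wf s V ≤ 8 * Multiset.card s := by
  induction s using Multiset.induction_on with
  | empty =>
    have : Wf 0 = fun _ => (0 : ℝ) := funext Wf_zero
    rw [this]
    exact ⟨intervalIntegrable_const, by simp⟩
  | cons ρ s ih =>
    have : Wf (ρ ::ₘ s) = fun V => w (V - ρ.im) + Wf s V := funext (Wf_cons ρ s)
    rw [this]
    have hw := w_shift (a := T) (b := T + 1) ρ.im (by linarith) (by linarith)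
    refine ⟨hw.1.add ih.1, ?_⟩
    rw [intervalIntegral.integral_add hw.1 ih.1, Multiset.card_cons]
    push_cast
    linarith [hw.2, ih.2]

/-- a good height -/
theorem choose_height (s1 s2 : Multiset ℂ) (T : ℝ) (Γ : Set ℝ) (hΓ : Γ.Finite) :
    ∃ V : ℝ, T ≤ V ∧ V ≤ T + 1 ∧ V ∉ Γ ∧
      Wf s1 V + Wf s2 V ≤ 8 * Multiset.card s1 + 8 * Multiset.card s2 + 1 := by
  by_contra hcon
  push Not at hcon
  obtain ⟨a1, a2⟩ := Wf_int s1 T
  obtain ⟨b1, b2⟩ := Wf_int s2 T
  have h1 : ∫ V in T..(T + 1), (8 * Multiset.card s1 + 8 * Multiset.card s2 + 1 : ℝ) ≤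
      ∫ V in T..(T + 1), (Wf s1 V + Wf s2 V) := by
    refine intervalIntegral.integral_mono_ae_restrict (by linarith) intervalIntegrable_const (a1.add b1) ?_
    have hae : ∀ᵐ x : ℝ, x ∉ Γ := by
      have : volume Γ = 0 := hΓ.measure_zero _
      exact compl_mem_ae_iff.2 this
    filter_upwards [ae_restrict_of_ae hae, ae_restrict_mem measurableSet_Icc] with V hV hV2
    exact (hcon V hV2.1 hV2.2 hV).le
  rw [intervalIntegral.integral_add a1 b1, intervalIntegral.integral_const] at h1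
  simp only [add_sub_cancel_left, one_smul] at h1
  linarith

/-- the zeros near the height `T` and the bound of the logarithmic derivative -/
theorem near {n : ℕ} {T A : ℝ} (hA : 0 ≤ A) (hne : iteratedDeriv n XX (I * T + 200) ≠ 0)
    (hb : ∀ z : ℂ, ‖z - (I * T + 200)‖ ≤ 204 → ‖iteratedDeriv n XX z‖ ≤
      Real.exp A * ‖iteratedDeriv n XX (I * T + 200)‖) :
    ∃ s : Multiset ℂ, (∀ ρ ∈ s, iteratedDeriv n XX ρ = 0) ∧
      (Multiset.card s : ℝ) ≤ A / Real.log (204 / 203) ∧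
      ∀ x V : ℝ, |x| ≤ 1 → T ≤ V → V ≤ T + 1 → iteratedDeriv n XX (⟨x, V⟩ : ℂ) ≠ 0 →
        ‖iteratedDeriv (n + 1) XX (⟨x, V⟩ : ℂ) / iteratedDeriv n XX (⟨x, V⟩ : ℂ)‖ ≤
          Sf s (⟨x, V⟩ : ℂ) + 810 * (2 * (A + A / Real.log (204 / 203) * Real.log 203 + 1)) := by
  set p : ℂ := I * T + 200 with hp
  set a : ℂ := (iteratedDeriv n XX p)⁻¹ with ha
  have ha0 : a ≠ 0 := inv_ne_zero hne
  have hn0 : 0 < ‖iteratedDeriv n XX p‖ := norm_pos_iff.2 hne
  have hgp : a * iteratedDeriv n XX p = 1 := inv_mul_cancel₀ hne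
  have h1A : 1 ≤ Real.exp A := Real.one_le_exp hA
  obtain ⟨s, hs, hcard, hl⟩ := landau_sum (f := fun z => a * iteratedDeriv n XX z) (c := p) (r := 203)
    (r1 := 202.5) (r2 := 202) (R := 204) (M := Real.exp A) (by norm_num) (by norm_num) (by norm_num)
    (by norm_num) (by norm_num) h1A (by simp only [hgp, norm_one]; exact h1A)
    (fun z _ => ((iter_diff n).const_mul a).analyticAt z) (by simp only [hgp]; exact one_ne_zero)
    (by
      intro z hz
      rw [mem_closedBall, dist_eq_norm] at hz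
      rw [norm_mul, ha, norm_inv, inv_mul_le_iff₀ hn0, mul_comm]
      exact hb z hz)
  simp only [hgp, norm_one, div_one, Real.log_exp] at hl hcard
  refine ⟨s, fun ρ hρ => (mul_eq_zero.1 (hs ρ hρ)).resolve_left ha0, hcard, ?_⟩
  intro x V hx hV1 hV2 h0
  have h2 := hl (⟨x, V⟩ : ℂ) (by
    rw [mem_closedBall, dist_eq_norm]
    have h4 : ‖(⟨x, V⟩ : ℂ) - p‖ ≤ |((⟨x, V⟩ : ℂ) - p).re| + |((⟨x, V⟩ : ℂ) - p).im| :=
      Complex.norm_le_abs_re_add_abs_im _
    have h5 : ((⟨x, V⟩ : ℂ) - p).re = x - 200 := by rw [hp]; simp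
    have h6 : ((⟨x, V⟩ : ℂ) - p).im = V - T := by rw [hp]; simp
    rw [h5, h6] at h4
    have hx' := abs_le.1 hx
    have h7 : |x - 200| ≤ 201 := by rw [abs_le]; constructor <;> linarith [hx'.1, hx'.2]
    have h8 : |V - T| ≤ 1 := by rw [abs_le]; constructor <;> linarith
    linarith) (mul_ne_zero ha0 h0)
  have hder : deriv (fun z => a * iteratedDeriv n XX z) (⟨x, V⟩ : ℂ) =
      a * iteratedDeriv (n + 1) XX (⟨x, V⟩ : ℂ) := by
    rw [iteratedDeriv_succ]
    exact deriv_const_mul _ ((iter_diff n) _)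
  rw [hder, mul_div_mul_left _ _ ha0] at h2
  refine h2.trans (le_of_eq ?_)
  have e : (203 : ℝ) / (204 - 203) = 203 := by norm_num
  rw [e]
  ring

/-- PART GH2 -/
def S_GH2 : Prop := ∃ C T0 : ℝ, 0 < C ∧ 2 ≤ T0 ∧ ∀ (T : ℝ) (n : ℕ), T0 ≤ T → (n : ℝ) ≤ Real.log T →
  ∃ V : ℝ, T ≤ V ∧ V ≤ T + 1 ∧ ∀ m : ℕ, m = 0 ∨ m = n →
    (∀ x : ℝ, |x| ≤ 1 → iteratedDeriv m XX (⟨x, V⟩ : ℂ) ≠ 0) ∧
    ∫ x in (-1 : ℝ)..1, ‖iteratedDeriv (m + 1) XX (⟨x, V⟩ : ℂ) / iteratedDeriv m XX (⟨x, V⟩ : ℂ)‖ ≤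
      C * Real.log T

theorem t_GH2 : S_GH2 := by
  classical
  obtain ⟨C, T0, hC, hT0, hg⟩ := growth Pool.Agent.H24R2.DZ.xb Pool.Agent.W347.SD.sb2
  set q : ℝ := Real.log (204 / 203) with hq
  have hq0 : 0 < q := Real.log_pos (by norm_num)
  set ℓ : ℝ := Real.log 203 with hℓ
  have hℓ0 : 0 < ℓ := Real.log_pos (by norm_num)
  set E : ℝ := 810 * (2 * (C + C / q * ℓ + 1)) with hE
  set D : ℝ := 8 * (16 * (C / q) + 1) + 2 * E with hD
  have hCq : 0 < C / q := by positivity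
  refine ⟨D, max T0 (Real.exp 1), by positivity, hT0.trans (le_max_left _ _), fun T n hT hn => ?_⟩
  have hTT : T0 ≤ T := (le_max_left _ _).trans hT
  have hT2 : 2 ≤ T := hT0.trans hTT
  have hL1 : 1 ≤ Real.log T := by
    rw [Real.le_log_iff_exp_le (by linarith)]
    exact (le_max_right _ _).trans hT
  set L : ℝ := Real.log T with hL
  have g0 := hg T 0 hTT (by push_cast; linarith)
  have gn := hg T n hTT (by linarith)
  obtain ⟨s0, z0, c0, l0⟩ := near (n := 0) (by positivity) g0.1 g0.2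
  obtain ⟨sn, zn, cn, ln⟩ := near (n := n) (by positivity) gn.1 gn.2
  rw [← hq] at c0 cn
  have h3 : C * L / q = C / q * L := by ring
  rw [h3] at c0 cn
  have hfin : (Complex.im '' (zs 0 (T + 1) ∪ zs n (T + 1)) : Set ℝ).Finite :=
    ((zs_finite 0 (T + 1)).union (zs_finite n (T + 1))).image _
  obtain ⟨V, hV1, hV2, hVΓ, hVW⟩ := choose_height s0 sn T _ hfin
  have hnz : ∀ m : ℕ, m = 0 ∨ m = n → ∀ ρ : ℂ, iteratedDeriv m XX ρ = 0 → V ≠ ρ.im := by
    intro m hm ρ hρ he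
    apply hVΓ
    refine ⟨ρ, ?_, he.symm⟩
    rcases hm with rfl | rfl
    · exact Or.inl ⟨hρ, by rw [← he]; linarith, by rw [← he]; exact hV2⟩
    · exact Or.inr ⟨hρ, by rw [← he]; linarith, by rw [← he]; exact hV2⟩
  refine ⟨V, hV1, hV2, fun m hm => ?_⟩
  have hnz2 : ∀ x : ℝ, iteratedDeriv m XX (⟨x, V⟩ : ℂ) ≠ 0 := fun x h0 => hnz m hm _ h0 rfl
  refine ⟨fun x _ => hnz2 x, ?_⟩
  have key : ∃ s : Multiset ℂ, (∀ ρ ∈ s, iteratedDeriv m XX ρ = 0) ∧
      Wf s V ≤ Wf s0 V + Wf sn V ∧ ∀ x V : ℝ, |x| ≤ 1 → T ≤ V → V ≤ T + 1 →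
        iteratedDeriv m XX (⟨x, V⟩ : ℂ) ≠ 0 →
        ‖iteratedDeriv (m + 1) XX (⟨x, V⟩ : ℂ) / iteratedDeriv m XX (⟨x, V⟩ : ℂ)‖ ≤
          Sf s (⟨x, V⟩ : ℂ) + 810 * (2 * (C * L + C * L / q * ℓ + 1)) := by
    have hpos : ∀ (s : Multiset ℂ) (V : ℝ), 0 ≤ Wf s V := fun s V => by
      refine Multiset.sum_nonneg fun y hy => ?_
      obtain ⟨ρ, _, rfl⟩ := Multiset.mem_map.1 hy
      exact w_nonneg _
    rcases hm with rfl | rfl
    · exact ⟨s0, z0, by linarith [hpos sn V], l0⟩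
    · exact ⟨sn, zn, by linarith [hpos s0 V], ln⟩
  obtain ⟨s, hs, hW, hl⟩ := key
  obtain ⟨i1, i2⟩ := Sf_int (s := s) (V := V) fun ρ hρ => hnz m hm ρ (hs ρ hρ)
  have hcont : Continuous (fun x : ℝ =>
      ‖iteratedDeriv (m + 1) XX (⟨x, V⟩ : ℂ) / iteratedDeriv m XX (⟨x, V⟩ : ℂ)‖) := by
    have : (fun x : ℝ => (⟨x, V⟩ : ℂ)) = fun x : ℝ => (x : ℂ) + (V : ℂ) * I := by
      funext x
      exact Complex.mk_eq_add_mul_I x V
    have hc : Continuous (fun x : ℝ => (⟨x, V⟩ : ℂ)) := by rw [this]; fun_prop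
    exact (((iter_diff (m + 1)).continuous.comp hc).div ((iter_diff m).continuous.comp hc) hnz2).norm
  have hmono : ∫ x in (-1 : ℝ)..1,
      ‖iteratedDeriv (m + 1) XX (⟨x, V⟩ : ℂ) / iteratedDeriv m XX (⟨x, V⟩ : ℂ)‖ ≤
      ∫ x in (-1 : ℝ)..1, (Sf s (⟨x, V⟩ : ℂ) + 810 * (2 * (C * L + C * L / q * ℓ + 1))) := by
    refine intervalIntegral.integral_mono_on (by norm_num) (hcont.intervalIntegrable _ _)
      (i1.add intervalIntegrable_const) ?_
    intro x hx
    exact hl x V (abs_le.2 ⟨by linarith [hx.1], by linarith [hx.2]⟩) hV1 hV2 (hnz2 x)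
  refine hmono.trans ?_
  rw [intervalIntegral.integral_add i1 intervalIntegrable_const, intervalIntegral.integral_const]
  have e5 : 810 * (2 * (C * L + C * L / q * ℓ + 1)) ≤ E * L := by
    have f2 : C * L / q * ℓ = C / q * ℓ * L := by ring
    rw [hE, f2]
    nlinarith
  have e6 : ((1 : ℝ) - -1) • (810 * (2 * (C * L + C * L / q * ℓ + 1))) ≤ 2 * (E * L) := by
    rw [smul_eq_mul]
    linarith
  have e7 : Wf s V ≤ 16 * (C / q) * L + 1 := by linarith
  have e8 : 8 * Wf s V ≤ 8 * (16 * (C / q) + 1) * L := by nlinarith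
  have e9 : D * L = 8 * (16 * (C / q) + 1) * L + 2 * (E * L) := by rw [hD]; ring
  linarith

end Pool.Agent.Zk4.FP
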