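import Pool.Agent.Zk2.FP.Stm
import Pool.Agent.W347.SD.SB2
import Pool.Agent.W125.SD.SUnitA
import Pool.Agent.H24R2.DZ.XB
import Pool.Agent.H24R2.DZ.Strip
import Pool.Agent.H370R2.Local

set_option autoImplicit false

/-!
# Good heights for `XX` and `XX^(n)` at once
-/

namespace Pool.Agent.Zk4.FP

open Complex Filter Topology MeasureTheory Set Metric
open Pool.Agent.H24R2.JP (XX HH Om)
open Pool.Agent.H24R2.DZ
open Pool.Agent.W125.SD (XX_diff iter_diff iter_scale jcount)
open Pool.Agent.Zk69.DH (zs zs_finite)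

theorem growth (hX : SXB) (h : SB2) : ∃ C T0 : ℝ, 0 < C ∧ 2 ≤ T0 ∧ ∀ (t : ℝ) (n : ℕ), T0 ≤ t →
    (n : ℝ) ≤ 60 * Real.log t → iteratedDeriv n XX (I * t + 200) ≠ 0 ∧
    ∀ z : ℂ, ‖z - (I * t + 200)‖ ≤ 204 → ‖iteratedDeriv n XX z‖ ≤
      Real.exp (C * Real.log t) * ‖iteratedDeriv n XX (I * t + 200)‖ := by
  obtain ⟨η, hη, hB⟩ := h
  obtain ⟨K0, T0, hT0, hX⟩ := hX 500
  set K : ℝ := |K0| + 1 with hKdef
  have hK1 : 1 ≤ K := by
    have := abs_nonneg K0
    linarith
  have hKK : K0 ≤ K := by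
    have := le_abs_self K0
    linarith
  refine ⟨302 + 2 * K, max T0 (Real.exp (2 * K / η + 2)), by positivity,
    ?_, ?_⟩
  · refine le_trans ?_ (le_max_right _ _)
    have h1 : (2 : ℝ) ≤ 2 * K / η + 2 := by
      have : 0 ≤ 2 * K / η := by positivity
      linarith
    have h2 := Real.add_one_le_exp (2 * K / η + 2)
    linarith
  intro t n ht hn
  have htT : T0 ≤ t := (le_max_left _ _).trans ht
  have ht1 : 1 ≤ t := hT0.trans htT
  have htpos : 0 < t := by linarith
  have hlog : 2 * K / η + 2 ≤ Real.log t := by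
    rw [Real.le_log_iff_exp_le htpos]
    exact (le_max_right _ _).trans ht
  have hL0 : 0 ≤ 2 * K / η := by positivity
  set L : ℝ := Real.log t with hLdef
  have hL2 : 2 ≤ L := by linarith
  have hLK : K ≤ L / 2 * η := by
    have h1 : 2 * K / η ≤ L := by linarith
    rw [div_le_iff₀ hη] at h1
    linarith
  -- the local facts
  set p : ℂ := I * t + 200 with hp
  have hup : ∀ u : ℂ, ‖u‖ ≤ 500 → ‖XX (I * t + u)‖ ≤ Real.exp (K * L) * ‖HH (I * t)‖ := by
    intro u hu
    refine (hX t u htT hu).1.trans ?_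
    gcongr
  have hlow : ∀ u : ℂ, ‖u‖ ≤ 500 → 10 ≤ u.re → XX (I * t + u) ≠ 0 ∧
      ‖HH (I * t)‖ ≤ Real.exp (K * L) * ‖XX (I * t + u)‖ ∧
      ‖logDeriv XX (I * t + u) - ((L / 2 : ℝ) : ℂ)‖ ≤ K := by
    intro u hu hre
    obtain ⟨h1, h2, h3⟩ := (hX t u htT hu).2 hre
    refine ⟨h1, ?_, h3.trans hKK⟩
    have h4 : ‖HH (I * t)‖ ≤ Real.exp (K0 * L) * ‖XX (I * t + u)‖ := by
      calc ‖HH (I * t)‖ = Real.exp (K0 * L) * (Real.exp (-(K0 * L)) * ‖HH (I * t)‖) := by
            rw [← mul_assoc, ← Real.exp_add, add_neg_cancel, Real.exp_zero, one_mul]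
        _ ≤ Real.exp (K0 * L) * ‖XX (I * t + u)‖ := by gcongr
    refine h4.trans ?_
    gcongr
  have hpX := hlow 200 (by norm_num) (by norm_num)
  have hXp : XX p ≠ 0 := hpX.1
  have hXp0 : 0 < ‖XX p‖ := norm_pos_iff.2 hXp
  have hfac : (0 : ℝ) < (n.factorial : ℝ) := by exact_mod_cast n.factorial_pos
  -- lower bound at `p`
  have hder : (n.factorial : ℝ) * ‖XX p‖ ≤ Real.exp (302 * L) * ‖iteratedDeriv n XX p‖ := by
    rcases Nat.eq_zero_or_pos n with rfl | hn1
    · simp only [Nat.factorial_zero, Nat.cast_one, one_mul, iteratedDeriv_zero]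
      have : 1 ≤ Real.exp (302 * L) := Real.one_le_exp (by positivity)
      nlinarith
    · have hnr : (1 : ℝ) ≤ n := by exact_mod_cast hn1
      set ρ : ℝ := n / (L / 2) with hρ
      have hρ0 : 0 < ρ := by positivity
      have hρ120 : ρ ≤ 120 := by
        rw [hρ, div_le_iff₀ (by positivity)]
        linarith
      have hkey := hB n 0 (fun w => XX (p + (ρ : ℂ) * w)) hn1 (by
        intro w hw
        rw [mem_ball_zero_iff] at hw
        have hw1 : ‖(ρ : ℂ) * w‖ ≤ 180 := by
          rw [norm_mul, Complex.norm_real, Real.norm_eq_abs, abs_of_pos hρ0]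
          nlinarith [norm_nonneg w]
        have hre : |((ρ : ℂ) * w).re| ≤ 180 := (Complex.abs_re_le_norm _).trans hw1
        have h1 := hlow (200 + (ρ : ℂ) * w) (by
          have := norm_add_le (200 : ℂ) ((ρ : ℂ) * w)
          have h200 : ‖(200 : ℂ)‖ = 200 := by norm_num
          rw [h200] at this
          linarith) (by
          have h200 : (200 : ℂ).re = 200 := by norm_num
          rw [Complex.add_re, h200]
          have := (abs_le.1 hre).1
          linarith)
        have heq : I * (t : ℂ) + (200 + (ρ : ℂ) * w) = p + ρ * w := by rw [hp]; ring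
        rw [heq] at h1
        have hlin : HasDerivAt (fun w : ℂ => p + (ρ : ℂ) * w) ρ w := by
          simpa using ((hasDerivAt_id w).const_mul (ρ : ℂ)).const_add p
        have hd : HasDerivAt (fun w => XX (p + (ρ : ℂ) * w)) (deriv XX (p + ρ * w) * ρ) w :=
          HasDerivAt.comp w (XX_diff _).hasDerivAt hlin
        refine ⟨hd.differentiableAt, h1.1, ?_⟩
        have hld : logDeriv (fun w => XX (p + (ρ : ℂ) * w)) w = logDeriv XX (p + ρ * w) * ρ := by
          rw [logDeriv_apply, hd.deriv, logDeriv_apply]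
          ring
        have hn2 : (n : ℂ) = ((L / 2 : ℝ) : ℂ) * (ρ : ℂ) := by
          rw [← Complex.ofReal_mul, hρ, mul_div_cancel₀ _ (by positivity : (L / 2 : ℝ) ≠ 0)]
          simp
        rw [hld, hn2, ← sub_mul, norm_mul, Complex.norm_real, Real.norm_eq_abs, abs_of_pos hρ0]
        have h5 : ‖logDeriv XX (p + ρ * w) - ((L / 2 : ℝ) : ℂ)‖ * ρ ≤ K * ρ := by
          gcongr
          exact h1.2.2
        refine h5.trans ?_
        have h6 : (n : ℝ) = L / 2 * ρ := by
          rw [hρ, mul_div_cancel₀ _ (by positivity : (L / 2 : ℝ) ≠ 0)]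
        rw [h6]
        nlinarith)
      rw [iter_scale] at hkey
      simp only [mul_zero, add_zero] at hkey
      rw [norm_mul, norm_pow, Complex.norm_real, Real.norm_eq_abs, abs_of_pos hρ0] at hkey
      refine hkey.trans ?_
      rw [← mul_assoc]
      gcongr
      have h120 : (120 : ℝ) ≤ Real.exp 5 := by
        have h1 := Real.exp_one_gt_d9
        have h2 : Real.exp 5 = Real.exp 1 ^ 5 := by rw [← Real.exp_nat_mul]; norm_num
        rw [h2]
        calc (120 : ℝ) ≤ 2.7 ^ 5 := by norm_num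
          _ ≤ Real.exp 1 ^ 5 := by gcongr; linarith
      have h2e : (2 : ℝ) ≤ Real.exp 1 := by
        have h1 := Real.exp_one_gt_d9
        linarith
      calc 2 * ρ ^ n ≤ Real.exp 1 * (Real.exp 5) ^ n := by
            gcongr
            exact hρ120.trans h120
        _ = Real.exp (1 + n * 5) := by rw [← Real.exp_nat_mul, ← Real.exp_add]
        _ ≤ Real.exp (302 * L) := by
            apply Real.exp_le_exp.2
            linarith
  have hne : iteratedDeriv n XX p ≠ 0 := by
    intro h0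
    rw [h0, norm_zero, mul_zero] at hder
    have : 0 < (n.factorial : ℝ) * ‖XX p‖ := by positivity
    linarith
  have hdn : Differentiable ℂ (iteratedDeriv n XX) := iter_diff n
  have hbound : ∀ z, ‖z - p‖ ≤ 204 → ‖iteratedDeriv n XX z‖ ≤
      Real.exp ((302 + 2 * K) * L) * ‖iteratedDeriv n XX p‖ := by
    intro z hz
    have hc := Complex.norm_iteratedDeriv_le_of_forall_mem_sphere_norm_le n (c := z) (R := 1)
      (C := Real.exp (K * L) * ‖HH (I * t)‖) (f := XX) one_pos XX_diff.diffContOnCl (by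
        intro w hw
        rw [mem_sphere_iff_norm] at hw
        have hw2 : w = I * t + (w - I * t) := by ring
        rw [hw2]
        refine hup _ ?_
        have hw3 : w - I * t = (w - z) + (z - p) + 200 := by rw [hp]; ring
        rw [hw3]
        have h1 := norm_add_le ((w - z) + (z - p)) (200 : ℂ)
        have h2 := norm_add_le (w - z) (z - p)
        have h200 : ‖(200 : ℂ)‖ = 200 := by norm_num
        rw [h200] at h1
        linarith)
    rw [one_pow, div_one] at hc
    refine hc.trans ?_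
    calc (n.factorial : ℝ) * (Real.exp (K * L) * ‖HH (I * t)‖)
        ≤ (n.factorial : ℝ) * (Real.exp (K * L) * (Real.exp (K * L) * ‖XX p‖)) := by
          gcongr
          exact hpX.2.1
      _ = Real.exp (2 * K * L) * ((n.factorial : ℝ) * ‖XX p‖) := by
          have : Real.exp (2 * K * L) = Real.exp (K * L) * Real.exp (K * L) := by
            rw [← Real.exp_add]; congr 1; ring
          rw [this]; ring
      _ ≤ Real.exp (2 * K * L) * (Real.exp (302 * L) * ‖iteratedDeriv n XX p‖) := by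
          gcongr
      _ = _ := by
          rw [← mul_assoc, ← Real.exp_add]
          congr 2
          ring
  exact ⟨hne, hbound⟩

/-- the zeros of `XX^(n)` with ordinate in `[T - 1, T + 2]` -/
theorem window_finite (n : ℕ) (T : ℝ) (hT : 2 ≤ T) :
    {s : ℂ | iteratedDeriv n XX s = 0 ∧ T - 1 ≤ s.im ∧ s.im ≤ T + 2}.Finite := by
  refine (zs_finite n (T + 2)).subset ?_
  rintro s ⟨h1, h2, h3⟩
  exact ⟨h1, by linarith, h3⟩

/-- the number of these zeros -/
theorem window_card {n : ℕ} {T A : ℝ} (hT : 2 ≤ T) (hne : iteratedDeriv n XX (I * T + 200) ≠ 0)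
    (hb : ∀ z : ℂ, ‖z - (I * T + 200)‖ ≤ 204 → ‖iteratedDeriv n XX z‖ ≤
      Real.exp A * ‖iteratedDeriv n XX (I * T + 200)‖) :
    ((window_finite n T hT).toFinset.card : ℝ) ≤ A / Real.log (204 / 203) := by
  have h := jcount (iter_diff n) (c := I * T + 200) (r := 203) (R := 204) (by norm_num) (by norm_num) hne hb
    (window_finite n T hT).toFinset (by
      intro s hs
      rw [Set.Finite.mem_toFinset] at hs
      obtain ⟨h1, h2, h3⟩ := hs
      have h3' := abs_le.1 (strip n s h1)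
      have h4 : ‖s - (I * T + 200)‖ ≤ |(s - (I * T + 200)).re| + |(s - (I * T + 200)).im| :=
        Complex.norm_le_abs_re_add_abs_im _
      have h5 : (s - (I * T + 200)).re = s.re - 200 := by simp
      have h6 : (s - (I * T + 200)).im = s.im - T := by simp
      rw [h5, h6] at h4
      have h7 : |s.re - 200| ≤ 201 := by rw [abs_le]; constructor <;> linarith [h3'.1, h3'.2]
      have h8 : |s.im - T| ≤ 2 := by rw [abs_le]; constructor <;> linarith
      linarith)
  refine le_trans ?_ h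
  rw [Finset.card_eq_sum_ones]
  push_cast
  refine Finset.sum_le_sum fun s hs => ?_
  rw [Set.Finite.mem_toFinset] at hs
  have ha : AnalyticAt ℂ (iteratedDeriv n XX) s := (iter_diff n).analyticAt s
  have h1 : analyticOrderNatAt (iteratedDeriv n XX) s ≠ 0 := by
    intro h0
    have htop : analyticOrderAt (iteratedDeriv n XX) s ≠ ⊤ := by
      intro htop
      rw [analyticOrderAt_eq_top] at htop
      have := AnalyticOnNhd.eqOn_zero_of_preconnected_of_eventuallyEq_zero
        (f := iteratedDeriv n XX) (U := univ) (fun s _ => (iter_diff n).analyticAt s)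
        isPreconnected_univ (mem_univ s) htop
      exact hne (this (mem_univ _))
    have h2 : analyticOrderAt (iteratedDeriv n XX) s = 0 := by
      unfold analyticOrderNatAt at h0
      rcases ENat.toNat_eq_zero.1 h0 with h | h
      · exact h
      · exact absurd h htop
    exact (ha.analyticOrderAt_eq_zero.1 h2) hs.1
  exact_mod_cast Nat.one_le_iff_ne_zero.2 h1

/-- Landau's lemma for `XX^(n)` -/
theorem landau_iter {n : ℕ} {T A : ℝ} (hA : 0 ≤ A) (hne : iteratedDeriv n XX (I * T + 200) ≠ 0)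
    (hb : ∀ z : ℂ, ‖z - (I * T + 200)‖ ≤ 204 → ‖iteratedDeriv n XX z‖ ≤
      Real.exp A * ‖iteratedDeriv n XX (I * T + 200)‖) {V : ℝ} (hV1 : T ≤ V) (hV2 : V ≤ T + 1)
    {x : ℝ} (hx : |x| ≤ 1) {δ : ℝ} (hδ : 0 < δ)
    (hd : ∀ ρ : ℂ, iteratedDeriv n XX ρ = 0 → δ ≤ |V - ρ.im|) :
    iteratedDeriv n XX (⟨x, V⟩ : ℂ) ≠ 0 ∧
    ‖iteratedDeriv (n + 1) XX (⟨x, V⟩ : ℂ) / iteratedDeriv n XX (⟨x, V⟩ : ℂ)‖ ≤
      A / Real.log (204 / 203) / δ + 810 * (2 * (A + A / Real.log (204 / 203) * Real.log 203 + 1)) := by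
  set p : ℂ := I * T + 200 with hp
  set a : ℂ := (iteratedDeriv n XX p)⁻¹ with ha
  have ha0 : a ≠ 0 := inv_ne_zero hne
  have hn0 : 0 < ‖iteratedDeriv n XX p‖ := norm_pos_iff.2 hne
  have hgp : a * iteratedDeriv n XX p = 1 := inv_mul_cancel₀ hne
  have h1A : 1 ≤ Real.exp A := Real.one_le_exp hA
  have hl := H370.Loc.landau (f := fun z => a * iteratedDeriv n XX z) (c := p) (r := 203)
    (r1 := 202.5) (r2 := 202) (R := 204) (M := Real.exp A) (by norm_num) (by norm_num) (by norm_num)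
    (by norm_num) (by norm_num) h1A (by simp only [hgp, norm_one]; exact h1A)
    (fun z _ => ((iter_diff n).const_mul a).analyticAt z) (by simp only [hgp]; exact one_ne_zero)
    (by
      intro z hz
      rw [mem_closedBall, dist_eq_norm] at hz
      rw [norm_mul, ha, norm_inv, inv_mul_le_iff₀ hn0, mul_comm]
      exact hb z hz) (⟨x, V⟩ : ℂ) (by
      rw [mem_closedBall, dist_eq_norm]
      have h4 : ‖(⟨x, V⟩ : ℂ) - p‖ ≤ |((⟨x, V⟩ : ℂ) - p).re| + |((⟨x, V⟩ : ℂ) - p).im| :=
        Complex.norm_le_abs_re_add_abs_im _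
      have h5 : ((⟨x, V⟩ : ℂ) - p).re = x - 200 := by rw [hp]; simp
      have h6 : ((⟨x, V⟩ : ℂ) - p).im = V - T := by rw [hp]; simp
      rw [h5, h6] at h4
      have hx' := abs_le.1 hx
      have h7 : |x - 200| ≤ 201 := by rw [abs_le]; constructor <;> linarith [hx'.1, hx'.2]
      have h8 : |V - T| ≤ 1 := by rw [abs_le]; constructor <;> linarith
      linarith) δ hδ (by
      intro ρ _ hρ
      have h1 : iteratedDeriv n XX ρ = 0 := (mul_eq_zero.1 hρ).resolve_left ha0
      refine (hd ρ h1).trans ?_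
      have := Complex.abs_im_le_norm ((⟨x, V⟩ : ℂ) - ρ)
      simpa using this)
  simp only [hgp, norm_one, div_one, Real.log_exp] at hl
  obtain ⟨h1, h2⟩ := hl
  have hder : deriv (fun z => a * iteratedDeriv n XX z) (⟨x, V⟩ : ℂ) =
      a * iteratedDeriv (n + 1) XX (⟨x, V⟩ : ℂ) := by
    rw [iteratedDeriv_succ]
    exact deriv_const_mul _ ((iter_diff n) _)
  rw [hder, mul_div_mul_left _ _ ha0] at h2
  refine ⟨right_ne_zero_of_mul h1, h2.trans (le_of_eq ?_)⟩
  have e : (203 : ℝ) / (204 - 203) = 203 := by norm_num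
  rw [e]
  ring

theorem t_GH : Pool.Agent.Zk2.FP.S_GH := by
  classical
  obtain ⟨C, T0, hC, hT0, hg⟩ := growth Pool.Agent.H24R2.DZ.xb Pool.Agent.W347.SD.sb2
  set q : ℝ := Real.log (204 / 203) with hq
  have hq0 : 0 < q := Real.log_pos (by norm_num)
  set ℓ : ℝ := Real.log 203 with hℓ
  have hℓ0 : 0 < ℓ := Real.log_pos (by norm_num)
  set D : ℝ := C / q * (2 * (2 * (C / q) + 1)) + 810 * (2 * (C + C / q * ℓ + 1)) with hD
  have hCq : 0 < C / q := by positivity
  refine ⟨D, max T0 (Real.exp 1), by positivity, hT0.trans (le_max_left _ _), fun T n hT hn => ?_⟩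
  have hTT : T0 ≤ T := (le_max_left _ _).trans hT
  have hT2 : 2 ≤ T := hT0.trans hTT
  have hL1 : 1 ≤ Real.log T := by
    rw [Real.le_log_iff_exp_le (by linarith)]
    exact (le_max_right _ _).trans hT
  set L : ℝ := Real.log T with hL
  have g0 := hg T 0 hTT (by push_cast; linarith)
  have gn := hg T n hTT (by linarith)
  have c0 := window_card (n := 0) hT2 g0.1 g0.2
  have cn := window_card (n := n) hT2 gn.1 gn.2
  rw [← hq, ← hL] at c0 cn
  set Γ : Finset ℝ := (window_finite 0 T hT2).toFinset.image (fun s : ℂ => s.im) ∪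
    (window_finite n T hT2).toFinset.image (fun s : ℂ => s.im) with hΓ
  have hcard : (Γ.card : ℝ) ≤ 2 * (C / q) * L := by
    have h1 : Γ.card ≤ (window_finite 0 T hT2).toFinset.card + (window_finite n T hT2).toFinset.card :=
      (Finset.card_union_le _ _).trans (add_le_add Finset.card_image_le Finset.card_image_le)
    have h2 : (Γ.card : ℝ) ≤ ((window_finite 0 T hT2).toFinset.card : ℝ) +
        (window_finite n T hT2).toFinset.card := by exact_mod_cast h1
    have h3 : C * L / q = C / q * L := by ring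
    rw [h3] at c0 cn
    linarith
  obtain ⟨V, hV, hVΓ⟩ := H370.Loc.pigeon Γ T
  refine ⟨V, hV.1, hV.2, fun x hx m hm => ?_⟩
  have hδ : (0 : ℝ) < 1 / (2 * ((Γ.card : ℝ) + 1)) := by positivity
  have hmn : iteratedDeriv m XX (I * T + 200) ≠ 0 ∧
    ∀ z : ℂ, ‖z - (I * T + 200)‖ ≤ 204 → ‖iteratedDeriv m XX z‖ ≤
      Real.exp (C * L) * ‖iteratedDeriv m XX (I * T + 200)‖ := by
    rcases hm with rfl | rfl
    · exact g0
    · exact gn
  have hwin : ∀ ρ : ℂ, iteratedDeriv m XX ρ = 0 → T - 1 ≤ ρ.im → ρ.im ≤ T + 2 → ρ.im ∈ Γ := by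
    intro ρ h1 h2 h3
    rw [hΓ, Finset.mem_union, Finset.mem_image, Finset.mem_image]
    rcases hm with rfl | rfl
    · exact Or.inl ⟨ρ, by rw [Set.Finite.mem_toFinset]; exact ⟨h1, h2, h3⟩, rfl⟩
    · exact Or.inr ⟨ρ, by rw [Set.Finite.mem_toFinset]; exact ⟨h1, h2, h3⟩, rfl⟩
  have hland := landau_iter (n := m) (T := T) (A := C * L) (by positivity) hmn.1 hmn.2 hV.1 hV.2 hx hδ (by
    intro ρ hρ
    by_cases hw : T - 1 ≤ ρ.im ∧ ρ.im ≤ T + 2
    · exact hVΓ _ (hwin ρ hρ hw.1 hw.2)
    · have h5 : 1 ≤ |V - ρ.im| := by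
        have h6 := hV.1
        have h7 := hV.2
        rw [not_and_or] at hw
        push Not at hw
        rcases hw with hw | hw
        · rw [le_abs]; left; linarith
        · rw [le_abs]; right; linarith
      refine le_trans ?_ h5
      rw [div_le_one (by positivity)]
      have : (0 : ℝ) ≤ Γ.card := by positivity
      linarith)
  refine ⟨hland.1, hland.2.trans ?_⟩
  rw [← hq, ← hℓ]
  have e1 : C * L / q / (1 / (2 * ((Γ.card : ℝ) + 1))) = C / q * L * (2 * ((Γ.card : ℝ) + 1)) := by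
    rw [div_div_eq_mul_div, div_one]
    ring
  rw [e1]
  have e2 : 2 * ((Γ.card : ℝ) + 1) ≤ 2 * (2 * (C / q) + 1) * L := by nlinarith
  have e4 : C / q * L * (2 * ((Γ.card : ℝ) + 1)) ≤ C / q * L * (2 * (2 * (C / q) + 1) * L) :=
    mul_le_mul_of_nonneg_left e2 (by positivity)
  have hLL : L ≤ L ^ 2 := by nlinarith
  have e5 : C * L + C * L / q * ℓ + 1 ≤ (C + C / q * ℓ + 1) * L ^ 2 := by
    have f1 : C * L ≤ C * L ^ 2 := mul_le_mul_of_nonneg_left hLL hC.le
    have f2 : C * L / q * ℓ ≤ C / q * ℓ * L ^ 2 := by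
      have : C * L / q * ℓ = C / q * ℓ * L := by ring
      rw [this]
      exact mul_le_mul_of_nonneg_left hLL (by positivity)
    have f3 : 1 ≤ L ^ 2 := hL1.trans hLL
    linarith
  calc _ ≤ C / q * L * (2 * (2 * (C / q) + 1) * L) + 810 * (2 * ((C + C / q * ℓ + 1) * L ^ 2)) := by
        gcongr
    _ = D * L ^ 2 := by rw [hD]; ring

end Pool.Agent.Zk4.FP
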